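import Pool.Agent.Q284.PS.Stm0

/-!
Project PS (helper284), job CRT, by helper68: Chinese remainder theorem with prescribed first
coefficients.
-/

set_option autoImplicit false

open Finset Polynomial
open Pool.Agent.H341R2.Sharp (Mon)
open Pool.Agent.Q284.PS

namespace Pool.Agent.Q68.PS

/-- a monic polynomial of degree `l + 1` with prescribed reverse modulo `X ^ (l + 1)` -/
lemma ex_w {F : Type} [Field F] (N : F[X]) (l : ℕ) (hN : N.coeff 0 = 1) :
    ∃ w : F[X], w.Monic ∧ w.natDegree = l + 1 ∧ ∀ i ≤ l, w.reverse.coeff i = N.coeff i := by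
  classical
  obtain ⟨w, hw⟩ : ∃ w : F[X], w = ∑ i ∈ range (l + 1), C (N.coeff i) * X ^ (l + 1 - i) := ⟨_, rfl⟩
  have hco : ∀ m, w.coeff m = if 1 ≤ m ∧ m ≤ l + 1 then N.coeff (l + 1 - m) else 0 := by
    intro m
    rw [hw, finset_sum_coeff]
    simp only [coeff_C_mul, coeff_X_pow, mul_ite, mul_one, mul_zero]
    split_ifs with h
    · rw [Finset.sum_eq_single (l + 1 - m)]
      · rw [if_pos (by omega)]
      · intro i hi hne
        rw [mem_range] at hi
        rw [if_neg (by omega)]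
      · intro hh
        exact absurd (mem_range.2 (by omega)) hh
    · refine Finset.sum_eq_zero (fun i hi => ?_)
      rw [mem_range] at hi
      rw [if_neg (by omega)]
  have hle : w.natDegree ≤ l + 1 := by
    rw [natDegree_le_iff_coeff_eq_zero]
    intro m hm
    rw [hco, if_neg (by omega)]
  have htop : w.coeff (l + 1) = 1 := by
    rw [hco, if_pos ⟨by omega, le_rfl⟩]
    simpa using hN
  have hdeg : w.natDegree = l + 1 := by
    apply le_antisymm hle
    apply le_natDegree_of_ne_zero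
    rw [htop]
    exact one_ne_zero
  refine ⟨w, ?_, hdeg, ?_⟩
  · rw [Monic, leadingCoeff, hdeg, htop]
  · intro i hi
    rw [coeff_reverse, hdeg, revAt_le (by omega), hco, if_pos ⟨by omega, by omega⟩]
    congr 1
    omega

theorem t_CRT : S_CRT := by
  classical
  intro F _ Q Q' f g u l hQ hQ' hu hG
  obtain ⟨a, b, hab⟩ : ∃ a b, EuclideanDomain.gcd Q Q' = Q * a + Q' * b :=
    ⟨_, _, EuclideanDomain.gcd_eq_gcd_ab Q Q'⟩
  obtain ⟨c, hc⟩ := hG (EuclideanDomain.gcd Q Q') (EuclideanDomain.gcd_dvd_left _ _)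
    (EuclideanDomain.gcd_dvd_right _ _)
  obtain ⟨M, hMdef⟩ : ∃ M, M = Q * Q' := ⟨_, rfl⟩
  have hM : M.Monic := by rw [hMdef]; exact hQ.mul hQ'
  obtain ⟨v₀, hv₀⟩ : ∃ v₀, v₀ = f - Q * a * c := ⟨_, rfl⟩
  have h1 : Q ∣ v₀ - f := ⟨-(a * c), by rw [hv₀]; ring⟩
  have h2 : Q' ∣ v₀ - g := ⟨b * c, by
    rw [hab] at hc
    rw [hv₀]
    linear_combination hc⟩
  obtain ⟨v, hv⟩ : ∃ v, v = v₀ %ₘ M := ⟨_, rfl⟩
  have hvM : M ∣ v - v₀ := ⟨-(v₀ /ₘ M), by
    have := modByMonic_add_div v₀ M
    rw [hv]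
    linear_combination this⟩
  have hvdeg : v.degree < M.degree := by
    rw [hv]
    exact degree_modByMonic_lt _ hM
  -- the power series part
  have hM0 : M.reverse.coeff 0 = 1 := by rw [coeff_zero_reverse]; exact hM
  have hu0 : u.reverse.coeff 0 = 1 := by rw [coeff_zero_reverse]; exact hu
  have hcop : IsCoprime M.reverse (X ^ (l + 1)) := by
    apply IsCoprime.pow_right
    rw [isCoprime_comm]
    refine (Irreducible.coprime_iff_not_dvd irreducible_X).2 ?_
    rw [X_dvd_iff, hM0]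
    exact one_ne_zero
  obtain ⟨r, s, hrs⟩ := hcop
  obtain ⟨N, hN⟩ : ∃ N, N = r * u.reverse := ⟨_, rfl⟩
  have hMN : X ^ (l + 1) ∣ M.reverse * N - u.reverse := ⟨-(s * u.reverse), by
    rw [hN]
    linear_combination u.reverse * hrs⟩
  have hN0 : N.coeff 0 = 1 := by
    have h3 : (M.reverse * N - u.reverse).coeff 0 = 0 :=
      (X_pow_dvd_iff.1 hMN) 0 (by omega)
    rw [coeff_sub, mul_coeff_zero, hM0, hu0, one_mul] at h3
    exact sub_eq_zero.1 h3
  obtain ⟨w, hw1, hw2, hw3⟩ := ex_w N l hN0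
  have hwN : X ^ (l + 1) ∣ w.reverse - N := by
    rw [X_pow_dvd_iff]
    intro i hi
    rw [coeff_sub, hw3 i (by omega), sub_self]
  have hMw : (M * w).Monic := hM.mul hw1
  have hMwdeg : (M * w).natDegree = M.natDegree + (l + 1) := by
    rw [hM.natDegree_mul hw1, hw2]
  have hlt : v.degree < (M * w).degree := by
    refine hvdeg.trans_le ?_
    rw [degree_eq_natDegree hM.ne_zero, degree_eq_natDegree hMw.ne_zero, hMwdeg]
    exact_mod_cast Nat.le_add_right _ _
  have hh : (M * w + v).Monic := hMw.add_of_left hlt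
  have hhdeg : (M * w + v).natDegree = M.natDegree + (l + 1) := by
    rw [natDegree_add_eq_left_of_degree_lt hlt, hMwdeg]
  refine ⟨M * w + v, hh, ?_, ?_, ?_⟩
  · have e : M * w + v - f = M * w + (v - v₀) + (v₀ - f) := by ring
    rw [e]
    have hQM : Q ∣ M := ⟨Q', hMdef⟩
    exact dvd_add (dvd_add (hQM.mul_right _) (hQM.trans hvM)) h1
  · have e : M * w + v - g = M * w + (v - v₀) + (v₀ - g) := by ring
    rw [e]
    have hQM : Q' ∣ M := ⟨Q, by rw [hMdef]; ring⟩
    exact dvd_add (dvd_add (hQM.mul_right _) (hQM.trans hvM)) h2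
  · have e1 : X ^ (l + 1) ∣ (M * w + v).reverse - (M * w).reverse := by
      rw [X_pow_dvd_iff]
      intro i hi
      rw [coeff_sub, coeff_reverse, coeff_reverse, hhdeg, hMwdeg, revAt_le (by omega), coeff_add]
      have : v.coeff (M.natDegree + (l + 1) - i) = 0 := by
        apply coeff_eq_zero_of_degree_lt
        refine hvdeg.trans_le ?_
        rw [degree_eq_natDegree hM.ne_zero]
        exact_mod_cast (by omega : M.natDegree ≤ M.natDegree + (l + 1) - i)
      rw [this]
      ring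
    have e2 : (M * w).reverse = M.reverse * w.reverse := reverse_mul_of_domain M w
    have e3 : (M * w + v).reverse - u.reverse = ((M * w + v).reverse - (M * w).reverse) +
        M.reverse * (w.reverse - N) + (M.reverse * N - u.reverse) := by
      rw [e2]
      ring
    rw [e3]
    exact dvd_add (dvd_add e1 (hwN.mul_left _)) hMN

end Pool.Agent.Q68.PS
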