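import Pool.Agent.Q284.PS.Stm0
import Pool.Agent.Q68.PS.CRT

/-!
Project PS (helper284), job ETA, by helper68: descent of the level of a Hayes character.
-/

set_option autoImplicit false

open Finset Polynomial
open Pool.Agent.H341R2.Sharp (Mon)
open Pool.Agent.Q284.PS

namespace Pool.Agent.Q68.PS

/-- a monic polynomial in the class of `f` which is prime to `K` -/
lemma adj {F : Type} [Field F] (hcrt : S_CRT) (G K : F[X]) (hG : G.Monic) (hK : K ≠ 0) (m : ℕ) (f : F[X])
    (hf : f.Monic) (hfG : IsCoprime f G) :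
    ∃ f₁ : F[X], f₁.Monic ∧ IsCoprime f₁ K ∧ G ∣ f₁ - f ∧ X ^ (m + 1) ∣ f₁.reverse - f.reverse := by
  classical
  obtain ⟨S, hS⟩ : ∃ S : Finset F[X], S =
    ((UniqueFactorizationMonoid.normalizedFactors K).toFinset).filter (fun P => ¬ P ∣ G) := ⟨_, rfl⟩
  have hSi : ∀ P ∈ S, Irreducible P ∧ P.Monic ∧ ¬ P ∣ G := by
    intro P hP
    rw [hS, mem_filter, Multiset.mem_toFinset] at hP
    have h1 := UniqueFactorizationMonoid.irreducible_of_normalized_factor P hP.1
    refine ⟨h1, ?_, hP.2⟩
    have h2 := UniqueFactorizationMonoid.normalize_normalized_factor P hP.1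
    rw [← h2]
    exact monic_normalize h1.ne_zero
  obtain ⟨N, hN⟩ : ∃ N, N = ∏ P ∈ S, P := ⟨_, rfl⟩
  have hNm : N.Monic := by
    rw [hN]
    exact monic_prod_of_monic _ _ (fun P hP => (hSi P hP).2.1)
  have hNG : IsCoprime N G := by
    rw [hN]
    exact IsCoprime.prod_left (fun P hP => (Irreducible.coprime_iff_not_dvd (hSi P hP).1).2
      (hSi P hP).2.2)
  obtain ⟨f₁, h1, h2, h3, h4⟩ := hcrt F G N f 1 f m hG hNm hf (by
    intro D hD1 hD2
    exact (hNG.isUnit_of_dvd' hD2 hD1).dvd)
  refine ⟨f₁, h1, ?_, h2, h4⟩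
  refine isCoprime_of_irreducible_dvd (fun hh => hK hh.2) ?_
  intro z hz hzf hzK
  obtain ⟨P, hP, hPz⟩ := UniqueFactorizationMonoid.exists_mem_normalizedFactors_of_dvd hK hz hzK
  have hPf : P ∣ f₁ := hPz.symm.dvd.trans hzf
  have hPi := UniqueFactorizationMonoid.irreducible_of_normalized_factor P hP
  by_cases hPG : P ∣ G
  · have h5 : P ∣ f := by
      have : P ∣ f₁ - f := hPG.trans h2
      have h6 : f = f₁ - (f₁ - f) := by ring
      rw [h6]
      exact dvd_sub hPf this
    exact hPi.not_isUnit (hfG.isUnit_of_dvd' h5 hPG)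
  · have hPS : P ∈ S := by
      rw [hS, mem_filter, Multiset.mem_toFinset]
      exact ⟨hP, hPG⟩
    have h5 : P ∣ N := by rw [hN]; exact dvd_prod_of_mem _ hPS
    have h6 : P ∣ 1 := by
      have : (1 : F[X]) = f₁ - (f₁ - 1) := by ring
      rw [this]
      exact dvd_sub hPf (h5.trans h3)
    exact hPi.not_isUnit (isUnit_of_dvd_one h6)

theorem t_ETA' (hcrt : S_CRT) : S_ETA := by
  classical
  intro F _ Q Q' G l l₀ χ hχ hQ' hG hGQ hl H
  have hK : Q * Q' ≠ 0 := mul_ne_zero hχ.monic.ne_zero hQ'.ne_zero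
  have hex : ∀ f : F[X], ∃ f₁ : F[X], f.Monic ∧ IsCoprime f G → f₁.Monic ∧ IsCoprime f₁ (Q * Q') ∧
      G ∣ f₁ - f ∧ X ^ (l₀ + 1) ∣ f₁.reverse - f.reverse := by
    intro f
    by_cases h : f.Monic ∧ IsCoprime f G
    · obtain ⟨f₁, h1⟩ := adj hcrt G (Q * Q') hG hK l₀ f h.1 h.2
      exact ⟨f₁, fun _ => h1⟩
    · exact ⟨0, fun h' => absurd h' h⟩
  choose r hr using hex
  have key : ∀ f g : F[X], f.Monic → IsCoprime f G → g.Monic → IsCoprime g (Q * Q') → G ∣ f - g →
      X ^ (l₀ + 1) ∣ f.reverse - g.reverse → χ (r f) = χ g := by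
    intro f g hf hfG hg hgK hd hrev
    obtain ⟨h1, h2, h3, h4⟩ := hr f ⟨hf, hfG⟩
    apply H _ _ h1 hg h2 hgK
    · have : r f - g = (r f - f) + (f - g) := by ring
      rw [this]
      exact dvd_add h3 hd
    · have : (r f).reverse - g.reverse = ((r f).reverse - f.reverse) + (f.reverse - g.reverse) := by
        ring
      rw [this]
      exact dvd_add h4 hrev
  refine ⟨fun f => if f.Monic ∧ IsCoprime f G then χ (r f) else 0, ?_, ?_⟩
  · refine ⟨hG, ?_, ?_, ?_, ?_, ?_, ?_⟩
    · intro f hf
      exact if_neg (fun h => hf h.1)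
    · have h1 : (1 : F[X]).Monic ∧ IsCoprime (1 : F[X]) G := ⟨monic_one, isCoprime_one_left⟩
      show (if (1 : F[X]).Monic ∧ IsCoprime (1 : F[X]) G then χ (r 1) else 0) = 1
      rw [if_pos h1, key 1 1 h1.1 h1.2 monic_one isCoprime_one_left (by simp) (by simp), hχ.one]
    · intro f g hf hg
      show (if (f * g).Monic ∧ IsCoprime (f * g) G then χ (r (f * g)) else 0) =
        (if f.Monic ∧ IsCoprime f G then χ (r f) else 0) *
        (if g.Monic ∧ IsCoprime g G then χ (r g) else 0)
      by_cases hfG : IsCoprime f G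
      · by_cases hgG : IsCoprime g G
        · have hfg : IsCoprime (f * g) G := hfG.mul_left hgG
          rw [if_pos ⟨hf.mul hg, hfg⟩, if_pos ⟨hf, hfG⟩, if_pos ⟨hg, hgG⟩]
          obtain ⟨a1, a2, a3, a4⟩ := hr f ⟨hf, hfG⟩
          obtain ⟨b1, b2, b3, b4⟩ := hr g ⟨hg, hgG⟩
          rw [← hχ.mul _ _ a1 b1]
          apply key _ _ (hf.mul hg) hfg (a1.mul b1) (a2.mul_left b2)
          · have : f * g - r f * r g = -((r f - f) * g + r f * (r g - g)) := by ring
            rw [this]
            exact (dvd_add (a3.mul_right _) (b3.mul_left _)).neg_right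
          · rw [reverse_mul_of_domain, reverse_mul_of_domain]
            have : f.reverse * g.reverse - (r f).reverse * (r g).reverse =
                -(((r f).reverse - f.reverse) * g.reverse +
                  (r f).reverse * ((r g).reverse - g.reverse)) := by ring
            rw [this]
            exact (dvd_add (a4.mul_right _) (b4.mul_left _)).neg_right
        · rw [if_neg (c := (f * g).Monic ∧ IsCoprime (f * g) G) (fun h => hgG h.2.of_mul_left_right),
            if_neg (c := g.Monic ∧ IsCoprime g G) (fun h => hgG h.2), mul_zero]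
      · rw [if_neg (c := (f * g).Monic ∧ IsCoprime (f * g) G) (fun h => hfG h.2.of_mul_left_left),
          if_neg (c := f.Monic ∧ IsCoprime f G) (fun h => hfG h.2), zero_mul]
    · intro f hf hfG
      show ‖(if f.Monic ∧ IsCoprime f G then χ (r f) else 0)‖ = 1
      rw [if_pos ⟨hf, hfG⟩]
      obtain ⟨a1, a2, a3, a4⟩ := hr f ⟨hf, hfG⟩
      exact hχ.norm _ a1 a2.of_mul_right_left
    · intro f hf hfG
      exact if_neg (fun h => hfG h.2)
    · intro f g hf hg hd hrev
      show (if f.Monic ∧ IsCoprime f G then χ (r f) else 0) =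
        (if g.Monic ∧ IsCoprime g G then χ (r g) else 0)
      by_cases hfG : IsCoprime f G
      · have hgG : IsCoprime g G := by
          obtain ⟨a, b, hab⟩ := hfG
          obtain ⟨c, hc⟩ := hd
          exact ⟨a, b + a * c, by linear_combination hab - a * hc⟩
        rw [if_pos ⟨hf, hfG⟩, if_pos ⟨hg, hgG⟩]
        obtain ⟨b1, b2, b3, b4⟩ := hr g ⟨hg, hgG⟩
        apply key _ _ hf hfG b1 b2
        · have : f - r g = (f - g) - (r g - g) := by ring
          rw [this]
          exact dvd_sub hd b3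
        · have : f.reverse - (r g).reverse = (f.reverse - g.reverse) - ((r g).reverse - g.reverse) := by
            ring
          rw [this]
          exact dvd_sub hrev b4
      · have hgG : ¬ IsCoprime g G := by
          intro hgG
          apply hfG
          obtain ⟨a, b, hab⟩ := hgG
          obtain ⟨c, hc⟩ := hd
          exact ⟨a, b - a * c, by linear_combination hab + a * hc⟩
        rw [if_neg (fun h => hfG h.2), if_neg (fun h => hgG h.2)]
  · intro f hf hfQ
    have hfG : IsCoprime f G := hfQ.of_isCoprime_of_dvd_right hGQ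
    show χ f = (if f.Monic ∧ IsCoprime f G then χ (r f) else 0)
    rw [if_pos ⟨hf, hfG⟩]
    obtain ⟨f₂, a1, a2, a3, a4⟩ := adj hcrt Q (Q * Q') hχ.monic hK l f hf hfQ
    rw [key f f₂ hf hfG a1 a2]
    · exact (hχ.per _ _ a1 hf a3 a4).symm
    · have : f - f₂ = -(f₂ - f) := by ring
      rw [this]
      exact (hGQ.trans a3).neg_right
    · have : f.reverse - f₂.reverse = -(f₂.reverse - f.reverse) := by ring
      rw [this]
      exact ((pow_dvd_pow X (by omega)).trans a4).neg_right

theorem t_ETA : S_ETA := t_ETA' t_CRT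

end Pool.Agent.Q68.PS
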