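import Pool.Agent.Q68.PS.Leg

/-!
Project PS (helper284), job LGA, by helper68: quadratic characters modulo `Q` are products of Legendre
symbols.
-/

set_option autoImplicit false

open Finset Polynomial
open Pool.Agent.H341R2.Sharp (Mon lam)
open Pool.Agent.Q284.PS

namespace Pool.Agent.Q68.PS

lemma multiset_prod_dvd {R : Type} [CommRing R] (u : R) (s : Multiset R) (h : ∀ x ∈ s, x ∣ u) :
    s.prod ∣ u ^ Multiset.card s := by
  induction s using Multiset.induction_on with
  | empty => simp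
  | cons a s ih =>
    rw [Multiset.prod_cons, Multiset.card_cons, pow_succ']
    exact mul_dvd_mul (h a (Multiset.mem_cons_self a s))
      (ih (fun x hx => h x (Multiset.mem_cons_of_mem hx)))

/-- the primes of `Q` -/
noncomputable def TT {F : Type} [Field F] (Q : F[X]) : Finset F[X] := by
  classical
  exact (UniqueFactorizationMonoid.normalizedFactors Q).toFinset

section
variable {F : Type} [Field F] {Q : F[X]}

lemma TT_spec (Q : F[X]) : (∀ P ∈ TT Q, Irreducible P ∧ P.Monic ∧ P ∣ Q) ∧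
    (Q ≠ 0 → (∀ z : F[X], Irreducible z → z ∣ Q → ∃ P ∈ TT Q, Associated z P) ∧
      ∀ u : F[X], (∀ P ∈ TT Q, P ∣ u) → ∃ n : ℕ, Q ∣ u ^ n) := by
  classical
  have hm : ∀ P, P ∈ TT Q ↔ P ∈ UniqueFactorizationMonoid.normalizedFactors Q := by
    intro P
    unfold TT
    exact Multiset.mem_toFinset
  refine ⟨?_, fun hQ => ⟨?_, ?_⟩⟩
  · intro P hP
    have h1 := (hm P).1 hP
    have h2 := UniqueFactorizationMonoid.irreducible_of_normalized_factor P h1
    refine ⟨h2, ?_, UniqueFactorizationMonoid.dvd_of_mem_normalizedFactors h1⟩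
    have h3 := UniqueFactorizationMonoid.normalize_normalized_factor P h1
    rw [← h3]
    exact monic_normalize h2.ne_zero
  · intro z hz hzQ
    obtain ⟨P, hP, hPz⟩ := UniqueFactorizationMonoid.exists_mem_normalizedFactors_of_dvd hQ hz hzQ
    exact ⟨P, (hm P).2 hP, hPz⟩
  · intro u hu
    refine ⟨Multiset.card (UniqueFactorizationMonoid.normalizedFactors Q), ?_⟩
    have h1 := multiset_prod_dvd u (UniqueFactorizationMonoid.normalizedFactors Q)
      (fun x hx => hu x ((hm x).2 hx))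
    exact (UniqueFactorizationMonoid.prod_normalizedFactors hQ).symm.dvd.trans h1

lemma TT_irr {P : F[X]} (h : P ∈ TT Q) : Irreducible P := ((TT_spec Q).1 P h).1

lemma TT_monic {P : F[X]} (h : P ∈ TT Q) : P.Monic := ((TT_spec Q).1 P h).2.1

lemma TT_dvd {P : F[X]} (h : P ∈ TT Q) : P ∣ Q := ((TT_spec Q).1 P h).2.2

lemma copr_iff (hQ : Q ≠ 0) (f : F[X]) : IsCoprime f Q ↔ ∀ P ∈ TT Q, ¬ P ∣ f := by
  constructor
  · intro h P hP hd
    exact (TT_irr hP).not_isUnit (h.isUnit_of_dvd' hd (TT_dvd hP))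
  · intro h
    refine isCoprime_of_irreducible_dvd (fun hh => hQ hh.2) ?_
    intro z hz hzf hzQ
    obtain ⟨P, hP, hPz⟩ := ((TT_spec Q).2 hQ).1 z hz hzQ
    exact h P hP (hPz.symm.dvd.trans hzf)

/-- the idempotents -/
lemma ex_e (P : F[X]) (hP : P ∈ TT Q) : ∃ e : F[X], P ∣ e - 1 ∧ ∀ P' ∈ TT Q, P' ≠ P → P' ∣ e := by
  classical
  have h1 : IsCoprime (∏ P' ∈ (TT Q).erase P, P') P := by
    refine IsCoprime.prod_left (fun P' hP' => ?_)
    rw [mem_erase] at hP'
    refine (Irreducible.coprime_iff_not_dvd (TT_irr hP'.2)).2 ?_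
    intro hd
    apply hP'.1
    exact eq_of_monic_of_associated (TT_monic hP'.2) (TT_monic hP)
      ((TT_irr hP'.2).associated_of_dvd (TT_irr hP) hd)
  obtain ⟨a, b, hab⟩ := h1
  refine ⟨a * ∏ P' ∈ (TT Q).erase P, P', ⟨-b, by linear_combination hab⟩, ?_⟩
  intro P' hP' hne
  exact (dvd_prod_of_mem _ (mem_erase.2 ⟨hne, hP'⟩)).mul_left _

end

section
variable {F : Type} [Field F] [Fintype F] {Q : F[X]} {κ : F[X] → ℤ}

/-- a quadratic character modulo `Q` -/
structure QC (Q : F[X]) (κ : F[X] → ℤ) : Prop where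
  monic : Q.Monic
  pm : ∀ f : F[X], IsCoprime f Q → κ f = 1 ∨ κ f = -1
  mul : ∀ f g : F[X], IsCoprime f Q → IsCoprime g Q → κ (f * g) = κ f * κ g
  per : ∀ f g : F[X], IsCoprime f Q → Q ∣ f - g → κ f = κ g

lemma QC.one (h : QC Q κ) : κ 1 = 1 := by
  have h1 := h.mul 1 1 isCoprime_one_left isCoprime_one_left
  rw [mul_one] at h1
  rcases h.pm 1 isCoprime_one_left with h2 | h2
  · exact h2
  · rw [h2] at h1
    norm_num at h1

lemma QC.pow (h : QC Q κ) (f : F[X]) (hf : IsCoprime f Q) (n : ℕ) : κ (f ^ n) = κ f ^ n := by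
  induction n with
  | zero => rw [pow_zero, pow_zero, h.one]
  | succ n ih => rw [pow_succ, pow_succ, h.mul _ _ hf.pow_left hf, ih]

lemma QC.prod (h : QC Q κ) (S : Finset F[X]) (a : F[X] → F[X]) (ha : ∀ P ∈ S, IsCoprime (a P) Q) :
    κ (∏ P ∈ S, a P) = ∏ P ∈ S, κ (a P) := by
  classical
  induction S using Finset.induction_on with
  | empty => rw [prod_empty, prod_empty, h.one]
  | insert P S hP ih =>
    rw [prod_insert hP, prod_insert hP, h.mul _ _ (ha P (mem_insert_self _ _))
      (IsCoprime.prod_left (fun P' hP' => ha P' (mem_insert_of_mem hP'))),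
      ih (fun P' hP' => ha P' (mem_insert_of_mem hP'))]

lemma QC.rad (h : QC Q κ) (h2 : ringChar F ≠ 2) (u : F[X]) (hu : ∀ P ∈ TT Q, P ∣ u) :
    κ (1 + u) = 1 := by
  classical
  have hQ := h.monic.ne_zero
  have hcop : IsCoprime (1 + u) Q := by
    rw [copr_iff hQ]
    intro P hP hd
    have h3 : P ∣ 1 := by
      have : (1 : F[X]) = (1 + u) - u := by ring
      rw [this]
      exact dvd_sub hd (hu P hP)
    exact (TT_irr hP).not_isUnit (isUnit_of_dvd_one h3)
  obtain ⟨p, hp⟩ := CharP.exists F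
  haveI := hp
  have hpp : p.Prime := CharP.char_is_prime F p
  haveI : Fact p.Prime := ⟨hpp⟩
  have hp2 : p ≠ 2 := by
    intro h3
    apply h2
    rw [ringChar.eq F p, h3]
  have hodd : Odd p := hpp.odd_of_ne_two hp2
  obtain ⟨m, hm⟩ := ((TT_spec Q).2 hQ).2 u hu
  have h4 : Q ∣ u ^ p ^ m := hm.trans (pow_dvd_pow u (Nat.lt_pow_self hpp.one_lt).le)
  have h5 : (1 + u) ^ p ^ m = 1 + u ^ p ^ m := by
    rw [add_pow_char_pow, one_pow]
  have h6 : κ ((1 + u) ^ p ^ m) = 1 := by
    rw [← h.one]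
    apply h.per _ _ hcop.pow_left
    rw [h5]
    simpa using h4
  rw [h.pow _ hcop] at h6
  rcases h.pm _ hcop with h7 | h7
  · exact h7
  · rw [h7, (hodd.pow).neg_one_pow] at h6
    norm_num at h6

lemma QC.cong (h : QC Q κ) (h2 : ringChar F ≠ 2) (f g : F[X]) (hf : IsCoprime f Q)
    (hfg : ∀ P ∈ TT Q, P ∣ f - g) : κ f = κ g := by
  have hQ := h.monic.ne_zero
  have hg : IsCoprime g Q := by
    rw [copr_iff hQ] at hf ⊢
    intro P hP hd
    apply hf P hP
    have : f = (f - g) + g := by ring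
    rw [this]
    exact dvd_add (hfg P hP) hd
  obtain ⟨a, b, hab⟩ := id hf
  have ha : IsCoprime a Q := ⟨f, b, by linear_combination hab⟩
  have h3 : κ (f * a) = 1 := by
    rw [← h.one]
    apply h.per _ _ (hf.mul_left ha)
    exact ⟨-b, by linear_combination hab⟩
  have h4 : κ (g * a) = 1 := by
    have e : g * a = 1 + (g * a - 1) := by ring
    rw [e]
    apply h.rad h2
    intro P hP
    have e2 : g * a - 1 = -((f - g) * a) + Q * (-b) := by linear_combination hab
    rw [e2]
    exact dvd_add ((hfg P hP).mul_right _).neg_right ((TT_dvd hP).mul_right _)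
  rw [h.mul _ _ hf ha] at h3
  rw [h.mul _ _ hg ha] at h4
  rcases h.pm a ha with h5 | h5 <;> rw [h5] at h3 h4 <;> linarith

end

theorem t_LGA : S_LGA := by
  classical
  intro F _ _ h2 Q κ hQm hpm hmul hper
  have h : QC Q κ := ⟨hQm, hpm, hmul, hper⟩
  have hQ := hQm.ne_zero
  have hex : ∀ P : F[X], ∃ e : F[X], P ∈ TT Q → P ∣ e - 1 ∧ ∀ P' ∈ TT Q, P' ≠ P → P' ∣ e := by
    intro P
    by_cases hP : P ∈ TT Q
    · obtain ⟨e, he⟩ := ex_e P hP
      exact ⟨e, fun _ => he⟩
    · exact ⟨0, fun hh => absurd hh hP⟩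
  choose e he using hex
  obtain ⟨c, hc⟩ : ∃ c : F[X] → F[X] → F[X], ∀ P f, c P f = 1 + e P * (f - 1) :=
    ⟨fun P f => 1 + e P * (f - 1), fun _ _ => rfl⟩
  have hc1 : ∀ P ∈ TT Q, ∀ f, P ∣ c P f - f := by
    intro P hP f
    have e1 : c P f - f = (e P - 1) * (f - 1) := by rw [hc]; ring
    rw [e1]
    exact (he P hP).1.mul_right _
  have hc2 : ∀ P ∈ TT Q, ∀ P' ∈ TT Q, P' ≠ P → ∀ f, P' ∣ c P f - 1 := by
    intro P hP P' hP' hne f
    have e1 : c P f - 1 = e P * (f - 1) := by rw [hc]; ring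
    rw [e1]
    exact ((he P hP).2 P' hP' hne).mul_right _
  have hcop : ∀ P ∈ TT Q, ∀ f, ¬ P ∣ f → IsCoprime (c P f) Q := by
    intro P hP f hf
    rw [copr_iff hQ]
    intro P' hP' hd
    by_cases hne : P' = P
    · subst hne
      apply hf
      have e1 : f = c P' f - (c P' f - f) := by ring
      rw [e1]
      exact dvd_sub hd (hc1 P' hP' f)
    · have h3 : P' ∣ 1 := by
        have e1 : (1 : F[X]) = c P f - (c P f - 1) := by ring
        rw [e1]
        exact dvd_sub hd (hc2 P hP P' hP' hne f)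
      exact (TT_irr hP').not_isUnit (isUnit_of_dvd_one h3)
  have hcmul : ∀ P ∈ TT Q, ∀ f g, ¬ P ∣ f → ¬ P ∣ g →
      κ (c P (f * g)) = κ (c P f) * κ (c P g) := by
    intro P hP f g hf hg
    rw [← h.mul _ _ (hcop P hP f hf) (hcop P hP g hg)]
    apply h.cong h2
    · apply hcop P hP
      intro hd
      rcases ((TT_irr hP).prime.dvd_or_dvd hd) with h3 | h3
      · exact hf h3
      · exact hg h3
    · intro P' hP'
      by_cases hne : P' = P
      · subst hne
        have e1 : c P' (f * g) - c P' f * c P' g = (c P' (f * g) - f * g) -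
            ((c P' f - f) * c P' g + f * (c P' g - g)) := by ring
        rw [e1]
        exact dvd_sub (hc1 P' hP' _) (dvd_add ((hc1 P' hP' _).mul_right _)
          ((hc1 P' hP' _).mul_left _))
      · have e1 : c P (f * g) - c P f * c P g = (c P (f * g) - 1) -
            ((c P f - 1) * c P g + (c P g - 1)) := by ring
        rw [e1]
        exact dvd_sub (hc2 P hP P' hP' hne _) (dvd_add ((hc2 P hP P' hP' hne _).mul_right _)
          (hc2 P hP P' hP' hne _))
  have hcsq : ∀ P ∈ TT Q, ∀ f, ¬ P ∣ f → leg P f = 1 → κ (c P f) = 1 := by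
    intro P hP f hf hl
    obtain ⟨g, hg⟩ := (leg_one_iff f hf).1 hl
    have hPg : ¬ P ∣ g := by
      intro hd
      apply hf
      have e1 : f = g * g - (g ^ 2 - f) := by ring
      rw [e1]
      exact dvd_sub (hd.mul_right _) hg
    have h3 : κ (c P f) = κ (c P (g * g)) := by
      apply h.cong h2 _ _ (hcop P hP f hf)
      intro P' hP'
      by_cases hne : P' = P
      · subst hne
        have e1 : c P' f - c P' (g * g) = (c P' f - f) - (g ^ 2 - f) - (c P' (g * g) - g * g) := by ring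
        rw [e1]
        exact dvd_sub (dvd_sub (hc1 P' hP' _) hg) (hc1 P' hP' _)
      · have e1 : c P f - c P (g * g) = (c P f - 1) - (c P (g * g) - 1) := by ring
        rw [e1]
        exact dvd_sub (hc2 P hP P' hP' hne _) (hc2 P hP P' hP' hne _)
    rw [h3, hcmul P hP g g hPg hPg]
    rcases h.pm _ (hcop P hP g hPg) with h4 | h4 <;> rw [h4] <;> norm_num
  obtain ⟨S, hS⟩ : ∃ S : Finset F[X], S = (TT Q).filter (fun P => ∃ f, ¬ P ∣ f ∧ κ (c P f) = -1) :=
    ⟨_, rfl⟩
  have hSsub : S ⊆ TT Q := by rw [hS]; exact filter_subset _ _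
  have hval : ∀ P ∈ TT Q, ∀ f, ¬ P ∣ f → κ (c P f) = if P ∈ S then leg P f else 1 := by
    intro P hP f hf
    split_ifs with hPS
    · rw [hS, mem_filter] at hPS
      obtain ⟨-, f₀, hf₀, hκ₀⟩ := hPS
      rcases leg_pm f hf with h3 | h3
      · rw [h3]
        exact hcsq P hP f hf h3
      · have h4 : leg P f₀ = -1 := by
          rcases leg_pm f₀ hf₀ with h5 | h5
          · have := hcsq P hP f₀ hf₀ h5
            rw [this] at hκ₀
            norm_num at hκ₀
          · exact h5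
        have h5 : leg P (f * f₀) = 1 := by
          rw [leg_mul (TT_irr hP) h2, h3, h4]
          norm_num
        have h6 : ¬ P ∣ f * f₀ := by
          intro hd
          rcases ((TT_irr hP).prime.dvd_or_dvd hd) with h7 | h7
          · exact hf h7
          · exact hf₀ h7
        have h7 := hcsq P hP _ h6 h5
        rw [hcmul P hP f f₀ hf hf₀, hκ₀] at h7
        rw [h3]
        linarith
    · rcases h.pm _ (hcop P hP f hf) with h3 | h3
      · exact h3
      · exact absurd (by rw [hS, mem_filter]; exact ⟨hP, f, hf, h3⟩) hPS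
  refine ⟨S, fun P hP => ⟨TT_monic (hSsub hP), TT_irr (hSsub hP), TT_dvd (hSsub hP)⟩, ?_⟩
  intro f hf
  have hnd : ∀ P ∈ TT Q, ¬ P ∣ f := (copr_iff hQ f).1 hf
  have h3 : κ f = κ (∏ P ∈ TT Q, c P f) := by
    apply h.cong h2 _ _ hf
    intro P' hP'
    rw [← AdjoinRoot.mk_eq_mk, map_prod]
    rw [Finset.prod_eq_single P']
    · exact (AdjoinRoot.mk_eq_mk.2 (by
        have := hc1 P' hP' f
        have e1 : f - c P' f = -(c P' f - f) := by ring
        rw [e1]
        exact this.neg_right))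
    · intro P hP hne
      have := hc2 P hP P' hP' (Ne.symm hne) f
      rw [← AdjoinRoot.mk_eq_mk] at this
      rw [this, map_one]
    · intro hh
      exact absurd hP' hh
  rw [h3, h.prod _ _ (fun P hP => hcop P hP f (hnd P hP)),
    Finset.prod_congr rfl (fun P hP => hval P hP f (hnd P hP)), Finset.prod_ite_mem,
    Finset.inter_eq_right.2 hSsub]

end Pool.Agent.Q68.PS
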