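import Pool.Agent.Q284.PS.Stm0
import Pool.Agent.H341R2.FieldSum

/-!
Project PS (helper284), by helper68: the Legendre symbol is the quadratic character of the residue field;
job LGB.
-/

set_option autoImplicit false

open Finset Polynomial
open Pool.Agent.H341R2.Sharp (Mon lam qc_aeval)
open Pool.Agent.Q284.PS

namespace Pool.Agent.Q68.PS

lemma fin_adj {F : Type} [Field F] [Fintype F] (P : F[X]) (hP : Irreducible P) :
    Finite (AdjoinRoot P) := by
  haveI : Fact (Irreducible P) := ⟨hP⟩
  haveI : Module.Finite F (AdjoinRoot P) := (AdjoinRoot.powerBasis hP.ne_zero).finite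
  exact Module.finite_of_finite F

lemma char_adj {F : Type} [Field F] (P : F[X]) [Fact (Irreducible P)] (h2 : ringChar F ≠ 2) :
    ringChar (AdjoinRoot P) ≠ 2 := by
  rwa [← Algebra.ringChar_eq F (AdjoinRoot P)]

lemma leg_qc {F : Type} [Field F] (P : F[X]) [Fact (Irreducible P)] [Fintype (AdjoinRoot P)]
    [DecidableEq (AdjoinRoot P)] (h2 : ringChar F ≠ 2) (g : F[X]) :
    leg P g = quadraticChar (AdjoinRoot P) (AdjoinRoot.mk P g) := by
  classical
  have hch := char_adj P h2
  have hz : AdjoinRoot.mk P g = 0 ↔ P ∣ g := AdjoinRoot.mk_eq_zero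
  have hsq : IsSquare (AdjoinRoot.mk P g) ↔ ∃ h : F[X], P ∣ h ^ 2 - g := by
    constructor
    · rintro ⟨y, hy⟩
      obtain ⟨h, rfl⟩ := AdjoinRoot.mk_surjective y
      refine ⟨h, ?_⟩
      rw [← AdjoinRoot.mk_eq_mk, map_pow, hy]
      ring
    · rintro ⟨h, hh⟩
      rw [← AdjoinRoot.mk_eq_mk, map_pow] at hh
      exact ⟨AdjoinRoot.mk P h, by rw [← hh]; ring⟩
  unfold leg
  by_cases h0 : P ∣ g
  · rw [if_pos h0, hz.2 h0, quadraticChar_zero]
  · rw [if_neg h0]
    have hne : AdjoinRoot.mk P g ≠ 0 := fun h => h0 (hz.1 h)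
    by_cases hs : ∃ h : F[X], P ∣ h ^ 2 - g
    · rw [if_pos hs]
      exact ((quadraticChar_one_iff_isSquare hne).2 (hsq.2 hs)).symm
    · rw [if_neg hs]
      exact (quadraticChar_neg_one_iff_not_isSquare.2 (fun h => hs (hsq.1 h))).symm

section
variable {F : Type} [Field F] [Fintype F] {P : F[X]}

lemma leg_mul (hP : Irreducible P) (h2 : ringChar F ≠ 2) (f g : F[X]) :
    leg P (f * g) = leg P f * leg P g := by
  classical
  haveI : Fact (Irreducible P) := ⟨hP⟩
  haveI := fin_adj P hP
  letI : Fintype (AdjoinRoot P) := Fintype.ofFinite _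
  rw [leg_qc P h2, leg_qc P h2, leg_qc P h2, map_mul, map_mul]

lemma leg_pm (f : F[X]) (h : ¬ P ∣ f) : leg P f = 1 ∨ leg P f = -1 := by
  classical
  unfold leg
  rw [if_neg h]
  split_ifs
  · exact Or.inl rfl
  · exact Or.inr rfl

lemma leg_one_iff (f : F[X]) (h : ¬ P ∣ f) : leg P f = 1 ↔ ∃ h : F[X], P ∣ h ^ 2 - f := by
  classical
  unfold leg
  rw [if_neg h]
  split_ifs with h1
  · exact ⟨fun _ => h1, fun _ => rfl⟩
  · constructor
    · intro h2
      norm_num at h2
    · intro h2
      exact absurd h2 h1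

end

theorem t_LGB : S_LGB := by
  classical
  intro F _ _ _ h2 P hm hP
  haveI : Fact (Irreducible P) := ⟨hP⟩
  haveI := fin_adj P hP
  letI : Fintype (AdjoinRoot P) := Fintype.ofFinite _
  have hs0 : quadraticChar F (-1) = 1 ∨ quadraticChar F (-1) = -1 :=
    quadraticChar_dichotomy (neg_ne_zero.2 one_ne_zero)
  refine ⟨quadraticChar F (-1) ^ P.natDegree, ?_, ?_⟩
  · rcases hs0 with h | h <;> rw [h]
    · exact Or.inl (one_pow _)
    · exact neg_one_pow_eq_or ℤ _
  · intro g hg hPg
    have e1 : AdjoinRoot.mk P g = aeval (AdjoinRoot.root P) g := (AdjoinRoot.aeval_eq g).symm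
    have hint : IsIntegral F (AdjoinRoot.root P) := (AdjoinRoot.isIntegral_root hP.ne_zero)
    have hmin : minpoly F (AdjoinRoot.root P) = P := by
      rw [AdjoinRoot.minpoly_root hP.ne_zero, hm.leadingCoeff]
      simp
    have hfin : Module.finrank F (AdjoinRoot P) = P.natDegree :=
      (AdjoinRoot.powerBasis hP.ne_zero).finrank
    have hpos : 0 < P.natDegree := hP.natDegree_pos
    rw [leg_qc P h2, e1, qc_aeval h2, hmin, hfin, Nat.div_self hpos, pow_one]
    have e2 : lam g P = quadraticChar F (resultant P g P.natDegree g.natDegree) := rfl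
    have e3 : lam P g = quadraticChar F (resultant g P g.natDegree P.natDegree) := rfl
    rw [e2, e3, resultant_comm P g, map_mul, map_pow, ← pow_mul]

end Pool.Agent.Q68.PS
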