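import Pool.Agent.Q284.PS.Stm

/-!
Project PS (helper284), job MER, by helper68: Mertens' theorem for polynomials.
-/

set_option autoImplicit false

open Finset Polynomial
open Pool.Agent.H341R2.Sharp (Mon mem_Mon)
open Pool.Agent.Q284.PS

namespace Pool.Agent.Q68.PS

section
variable {F : Type} [Field F] [Fintype F]

lemma mem_PI' (m : ℕ) (P : F[X]) : P ∈ PI F m ↔ P.Monic ∧ P.natDegree = m ∧ Irreducible P := by
  classical
  unfold PI
  rw [mem_filter, mem_Mon, and_assoc]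

lemma mem_PD' (k : ℕ) (P : F[X]) :
    P ∈ PD F k ↔ P.Monic ∧ P.natDegree ≤ k ∧ Irreducible P ∧ P.natDegree ∣ k := by
  classical
  unfold PD
  rw [mem_filter, mem_biUnion]
  constructor
  · rintro ⟨⟨n, hn, hP⟩, h1, h2⟩
    rw [mem_Mon] at hP
    rw [mem_range] at hn
    exact ⟨hP.1, by omega, h1, h2⟩
  · rintro ⟨h1, h2, h3, h4⟩
    exact ⟨⟨P.natDegree, mem_range.2 (by omega), mem_Mon.2 ⟨h1, rfl⟩⟩, h3, h4⟩

lemma cpr_div (hcpr : S_CPR) (k : ℕ) (hk : 1 ≤ k) :
    ∑ m ∈ k.divisors, m * (PI F m).card = Fintype.card F ^ k := by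
  classical
  rw [← hcpr F k hk]
  rw [← Finset.sum_fiberwise_of_maps_to (s := PD F k) (t := k.divisors)
    (g := fun P => P.natDegree) (f := fun P => P.natDegree) (by
      intro P hP
      rw [mem_PD'] at hP
      rw [Nat.mem_divisors]
      exact ⟨hP.2.2.2, by omega⟩)]
  refine Finset.sum_congr rfl (fun m hm => ?_)
  rw [Nat.mem_divisors] at hm
  have h1 : (PD F k).filter (fun P => P.natDegree = m) = PI F m := by
    ext P
    rw [mem_filter, mem_PD', mem_PI']
    constructor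
    · rintro ⟨⟨a1, a2, a3, a4⟩, a5⟩
      exact ⟨a1, a5, a3⟩
    · rintro ⟨a1, a2, a3⟩
      have := Nat.le_of_dvd hk hm.1
      exact ⟨⟨a1, by omega, a3, by rw [a2]; exact hm.1⟩, a2⟩
  rw [h1, Finset.sum_congr rfl (fun P hP => ((mem_PI' m P).1 hP).2.1), Finset.sum_const,
    smul_eq_mul, mul_comm]

lemma card_PI_le (hcpr : S_CPR) (m : ℕ) (hm : 1 ≤ m) :
    m * (PI F m).card ≤ Fintype.card F ^ m := by
  rw [← cpr_div hcpr m hm]
  exact Finset.single_le_sum (f := fun m => m * (PI F m).card) (fun _ _ => Nat.zero_le _)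
    (Nat.mem_divisors.2 ⟨dvd_rfl, by omega⟩)

lemma one_lt_qq : 1 < qq F := by
  unfold qq
  exact_mod_cast Fintype.one_lt_card

end

lemma log_bd (x : ℝ) (h0 : 0 ≤ x) (h1 : x < 1) (n : ℕ) :
    ∑ j ∈ range n, x ^ (j + 1) / ((j : ℝ) + 1) ≤ -Real.log (1 - x) := by
  have h := Real.hasSum_pow_div_log_of_abs_lt_one (x := x) (by rw [abs_of_nonneg h0]; exact h1)
  exact sum_le_hasSum _ (fun j _ => by positivity) h

lemma harm (y : ℕ) : Real.log (y + 1) ≤ ∑ k ∈ Icc 1 y, 1 / (k : ℝ) := by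
  have h := log_add_one_le_harmonic y
  rw [harmonic_eq_sum_Icc] at h
  push_cast at h
  simpa using h

section
variable {F : Type} [Field F] [Fintype F]

lemma inner_le (y m : ℕ) (hm : 1 ≤ m) (q : ℝ) (hq : 1 < q) :
    ∑ k ∈ (Icc 1 y).filter (fun k => m ∣ k), (m : ℝ) / (k * q ^ k) ≤
      -Real.log (1 - 1 / q ^ m) := by
  have hx0 : 0 ≤ 1 / q ^ m := by positivity
  have hx1 : 1 / q ^ m < 1 := by
    rw [div_lt_one (by positivity)]
    exact one_lt_pow₀ hq (by omega)
  refine le_trans ?_ (log_bd (1 / q ^ m) hx0 hx1 y)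
  have hinj : Set.InjOn (fun k : ℕ => k / m - 1) ((Icc 1 y).filter (fun k => m ∣ k) : Finset ℕ) := by
    intro a ha b hb hab
    rw [mem_coe, mem_filter, mem_Icc] at ha hb
    obtain ⟨a', rfl⟩ := ha.2
    obtain ⟨b', rfl⟩ := hb.2
    have h1 : a' ≠ 0 := by
      rintro rfl
      have := ha.1.1
      omega
    have h2 : b' ≠ 0 := by
      rintro rfl
      have := hb.1.1
      omega
    simp only [Nat.mul_div_cancel_left _ (show 0 < m by omega)] at hab
    have h3 : a' = b' := by omega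
    rw [h3]
  have h1 : ∑ k ∈ (Icc 1 y).filter (fun k => m ∣ k), (m : ℝ) / (k * q ^ k) =
      ∑ k ∈ (Icc 1 y).filter (fun k => m ∣ k),
        (fun j : ℕ => (1 / q ^ m) ^ (j + 1) / ((j : ℝ) + 1)) (k / m - 1) := by
    refine Finset.sum_congr rfl (fun k hk => ?_)
    rw [mem_filter, mem_Icc] at hk
    obtain ⟨a, rfl⟩ := hk.2
    obtain ⟨b, rfl⟩ : ∃ b, a = b + 1 := by
      rcases Nat.eq_zero_or_pos a with h0 | h0
      · subst h0
        have := hk.1.1
        omega
      · exact ⟨a - 1, by omega⟩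
    show (m : ℝ) / (((m * (b + 1) : ℕ) : ℝ) * q ^ (m * (b + 1))) =
      (1 / q ^ m) ^ ((m * (b + 1) / m - 1) + 1) / (((m * (b + 1) / m - 1 : ℕ) : ℝ) + 1)
    rw [Nat.mul_div_cancel_left _ (show 0 < m by omega), Nat.add_sub_cancel]
    have hm0 : (m : ℝ) ≠ 0 := by exact_mod_cast (by omega : m ≠ 0)
    have hq0 : q ≠ 0 := by positivity
    rw [pow_mul, div_pow, one_pow]
    push_cast
    field_simp
  rw [h1, ← Finset.sum_image (f := fun j : ℕ => (1 / q ^ m) ^ (j + 1) / ((j : ℝ) + 1)) hinj]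
  refine Finset.sum_le_sum_of_subset_of_nonneg ?_ (fun j _ _ => by positivity)
  intro j hj
  rw [mem_image] at hj
  obtain ⟨k, hk, rfl⟩ := hj
  rw [mem_filter, mem_Icc] at hk
  rw [mem_range]
  have : k / m ≤ k := Nat.div_le_self _ _
  omega

lemma main1 (hcpr : S_CPR) (y : ℕ) : Real.log (y + 1) ≤
    ∑ m ∈ Icc 1 y, ((PI F m).card : ℝ) * (-Real.log (1 - 1 / qq F ^ m)) := by
  classical
  refine (harm y).trans ?_
  have hq := one_lt_qq (F := F)
  have h1 : ∀ k ∈ Icc 1 y, 1 / (k : ℝ) =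
      ∑ m ∈ Icc 1 y, if m ∣ k then ((PI F m).card : ℝ) * ((m : ℝ) / (k * qq F ^ k)) else 0 := by
    intro k hk
    rw [mem_Icc] at hk
    rw [← Finset.sum_filter]
    have h2 : (Icc 1 y).filter (fun m => m ∣ k) = k.divisors := by
      ext m
      rw [mem_filter, mem_Icc, Nat.mem_divisors]
      constructor
      · rintro ⟨_, h⟩
        exact ⟨h, by omega⟩
      · rintro ⟨h, _⟩
        have h3 := Nat.le_of_dvd (by omega) h
        have h4 := Nat.pos_of_dvd_of_pos h (by omega)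
        exact ⟨⟨h4, by omega⟩, h⟩
    rw [h2]
    have h3 := cpr_div (F := F) hcpr k hk.1
    have h4 : ∑ m ∈ k.divisors, (m : ℝ) * ((PI F m).card : ℝ) = qq F ^ k := by
      unfold qq
      exact_mod_cast h3
    have h5 : ∑ m ∈ k.divisors, ((PI F m).card : ℝ) * ((m : ℝ) / (k * qq F ^ k)) =
        (∑ m ∈ k.divisors, (m : ℝ) * ((PI F m).card : ℝ)) / (k * qq F ^ k) := by
      rw [Finset.sum_div]
      refine Finset.sum_congr rfl (fun m _ => ?_)
      ring
    rw [h5, h4]
    have hk0 : (k : ℝ) ≠ 0 := by exact_mod_cast (by omega : k ≠ 0)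
    have hq0 : qq F ^ k ≠ 0 := by positivity
    field_simp
  rw [Finset.sum_congr rfl h1, Finset.sum_comm]
  refine Finset.sum_le_sum (fun m hm => ?_)
  rw [mem_Icc] at hm
  rw [← Finset.sum_filter, ← Finset.mul_sum]
  exact mul_le_mul_of_nonneg_left (inner_le y m hm.1 _ hq) (Nat.cast_nonneg _)

end

/-- MER from CPR. -/
theorem t_MER (hcpr : S_CPR) : S_MER := by
  classical
  intro F _ _ y hy
  have hq := one_lt_qq (F := F)
  have hy0 : (0 : ℝ) < y := by exact_mod_cast hy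
  constructor
  · have h1 := main1 (F := F) hcpr y
    have hpos : ∀ m ∈ Icc 1 y, 0 < 1 - 1 / qq F ^ m := by
      intro m hm
      rw [mem_Icc] at hm
      have : 1 / qq F ^ m < 1 := by
        rw [div_lt_one (by positivity)]
        exact one_lt_pow₀ hq (by omega)
      linarith
    have hprod : 0 < ∏ m ∈ Icc 1 y, (1 - 1 / qq F ^ m) ^ (PI F m).card :=
      Finset.prod_pos (fun m hm => pow_pos (hpos m hm) _)
    have h2 : Real.log (∏ m ∈ Icc 1 y, (1 - 1 / qq F ^ m) ^ (PI F m).card) =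
        ∑ m ∈ Icc 1 y, ((PI F m).card : ℝ) * Real.log (1 - 1 / qq F ^ m) := by
      rw [Real.log_prod (fun m hm => (pow_pos (hpos m hm) _).ne')]
      refine Finset.sum_congr rfl (fun m _ => ?_)
      rw [Real.log_pow]
    have h3 : Real.log (∏ m ∈ Icc 1 y, (1 - 1 / qq F ^ m) ^ (PI F m).card) ≤ Real.log (1 / y) := by
      rw [h2, Real.log_div one_ne_zero hy0.ne', Real.log_one]
      have h4 : Real.log y ≤ Real.log (y + 1) := Real.log_le_log hy0 (by linarith)
      have h5 : ∑ m ∈ Icc 1 y, ((PI F m).card : ℝ) * (-Real.log (1 - 1 / qq F ^ m)) =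
          -∑ m ∈ Icc 1 y, ((PI F m).card : ℝ) * Real.log (1 - 1 / qq F ^ m) := by
        rw [← Finset.sum_neg_distrib]
        refine Finset.sum_congr rfl (fun m _ => ?_)
        ring
      rw [h5] at h1
      linarith
    exact (Real.log_le_log_iff hprod (by positivity)).1 h3
  · intro j
    obtain ⟨Z, hZ⟩ : ∃ Z, Z = y / 2 ^ j := ⟨_, rfl⟩
    have h2j : 0 < 2 ^ j := by positivity
    have hmem : ∀ m ∈ (Icc 1 y).filter (fun m => y < 2 ^ (j + 1) * m ∧ 2 ^ j * m ≤ y),
        1 ≤ m ∧ m ≤ Z ∧ Z + 1 ≤ 2 * m := by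
      intro m hm
      rw [mem_filter, mem_Icc] at hm
      obtain ⟨⟨a1, a2⟩, a3, a4⟩ := hm
      refine ⟨a1, ?_, ?_⟩
      · rw [hZ, Nat.le_div_iff_mul_le h2j, mul_comm]
        exact a4
      · have : y / 2 ^ j < 2 * m := by
          rw [Nat.div_lt_iff_lt_mul h2j]
          calc y < 2 ^ (j + 1) * m := a3
            _ = 2 * m * 2 ^ j := by ring
        omega
    have hterm : ∀ m ∈ (Icc 1 y).filter (fun m => y < 2 ^ (j + 1) * m ∧ 2 ^ j * m ≤ y),
        ((PI F m).card : ℝ) / qq F ^ m ≤ 2 / ((Z : ℝ) + 1) := by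
      intro m hm
      obtain ⟨a1, a2, a3⟩ := hmem m hm
      have h1 := card_PI_le (F := F) hcpr m a1
      have h2 : (m : ℝ) * ((PI F m).card : ℝ) ≤ qq F ^ m := by
        unfold qq
        exact_mod_cast h1
      have hm0 : (0 : ℝ) < m := by exact_mod_cast a1
      have h3 : ((PI F m).card : ℝ) / qq F ^ m ≤ 1 / m := by
        rw [div_le_div_iff₀ (by positivity) hm0]
        linarith
      refine h3.trans ?_
      rw [div_le_div_iff₀ hm0 (by positivity)]
      have : ((Z : ℝ) + 1) ≤ 2 * m := by exact_mod_cast a3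
      linarith
    refine (Finset.sum_le_sum hterm).trans ?_
    rw [Finset.sum_const, nsmul_eq_mul]
    have hcard : ((Icc 1 y).filter (fun m => y < 2 ^ (j + 1) * m ∧ 2 ^ j * m ≤ y)).card ≤ Z + 1 := by
      calc _ ≤ (range (Z + 1)).card := by
            apply card_le_card
            intro m hm
            obtain ⟨a1, a2, a3⟩ := hmem m hm
            exact mem_range.2 (by omega)
        _ = Z + 1 := card_range _
    have hcard' : (((Icc 1 y).filter (fun m => y < 2 ^ (j + 1) * m ∧ 2 ^ j * m ≤ y)).card : ℝ) ≤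
        (Z : ℝ) + 1 := by exact_mod_cast hcard
    calc _ ≤ ((Z : ℝ) + 1) * (2 / ((Z : ℝ) + 1)) :=
          mul_le_mul_of_nonneg_right hcard' (by positivity)
      _ = 2 := by
          have : (Z : ℝ) + 1 ≠ 0 := by positivity
          field_simp
      _ ≤ 3 := by norm_num

end Pool.Agent.Q68.PS
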